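import Mathlib

/-!
The complete bipartite graph `K_{2,9}` violates `R(G) + α(G) ≤ n - 1 + √(n - 1)`.
-/

namespace Pool.Agent.Results.MP_e31007_co.Counter

open SimpleGraph Finset

/-- The Randić index: the sum over all edges `uv` of `1 / √(d_u d_v)`. -/
noncomputable def randic {V : Type} [Fintype V] [DecidableEq V] (G : SimpleGraph V)
    [DecidableRel G.Adj] : ℝ :=
  ∑ e ∈ G.edgeFinset, Sym2.lift ⟨fun u v => 1 / √((G.degree u : ℝ) * (G.degree v : ℝ)),
    fun _ _ => congrArg (fun t : ℝ => 1 / √t) (mul_comm _ _)⟩ e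

def adj (u v : Fin 11) : Prop := (u.val < 2 ∧ 2 ≤ v.val) ∨ (v.val < 2 ∧ 2 ≤ u.val)

instance : DecidableRel adj := fun u v => by unfold adj; infer_instance

/-- The complete bipartite graph with parts `{0, 1}` and `{2, …, 10}`. -/
def G0 : SimpleGraph (Fin 11) where
  Adj := adj
  symm := ⟨fun u v h => Or.symm h⟩
  loopless := ⟨fun u h => by unfold adj at h; omega⟩

instance : DecidableRel G0.Adj := inferInstanceAs (DecidableRel adj)

lemma conn : G0.Connected := by
  rw [connected_iff_exists_forall_reachable]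
  refine ⟨0, fun w => ?_⟩
  have h2 : G0.Reachable 0 2 := Adj.reachable (by decide)
  have h1 : G0.Reachable 0 1 := h2.trans (Adj.reachable (by decide))
  have key : ∀ w : Fin 11, w = 0 ∨ w = 1 ∨ G0.Adj 0 w := by decide
  rcases key w with rfl | rfl | h
  · exact Reachable.refl _
  · exact h1
  · exact h.reachable

lemma deg_mul : ∀ u v, G0.Adj u v → G0.degree u * G0.degree v = 18 := by decide +kernel

lemma card_edges : #G0.edgeFinset = 18 := by decide +kernel

lemma randic_eq : randic G0 = 18 / √18 := by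
  have key : ∀ e ∈ G0.edgeFinset,
      Sym2.lift ⟨fun u v => 1 / √((G0.degree u : ℝ) * (G0.degree v : ℝ)),
        fun _ _ => congrArg (fun t : ℝ => 1 / √t) (mul_comm _ _)⟩ e = 1 / √18 := by
    refine Sym2.ind fun u v he => ?_
    have h : G0.Adj u v := by simpa using he
    have h2 : (G0.degree u : ℝ) * (G0.degree v : ℝ) = 18 := by exact_mod_cast deg_mul u v h
    rw [Sym2.lift_mk]
    simp only [h2]
  unfold randic
  rw [sum_congr rfl key, sum_const, card_edges, nsmul_eq_mul]
  push_cast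
  ring

lemma indep_ge : 9 ≤ G0.indepNum := by
  have h : G0.IsIndepSet (({2, 3, 4, 5, 6, 7, 8, 9, 10} : Finset (Fin 11)) : Set (Fin 11)) := by
    have key : ∀ u ∈ ({2, 3, 4, 5, 6, 7, 8, 9, 10} : Finset (Fin 11)),
        ∀ v ∈ ({2, 3, 4, 5, 6, 7, 8, 9, 10} : Finset (Fin 11)), ¬ G0.Adj u v := by decide +kernel
    exact fun u hu v hv _ => key u hu v hv
  exact h.card_le_indepNum

/-- A connected graph on `n = 11` vertices with `R(G) + α(G) > n - 1 + √(n - 1)`. -/
theorem result : ∃ (n : ℕ) (G : SimpleGraph (Fin n)) (_ : DecidableRel G.Adj),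
    3 ≤ n ∧ G.Connected ∧
    (n : ℝ) - 1 + √((n : ℝ) - 1) < randic G + (G.indepNum : ℝ) := by
  refine ⟨11, G0, inferInstance, by norm_num, conn, ?_⟩
  have h1 : (9 : ℝ) ≤ G0.indepNum := by exact_mod_cast indep_ge
  have h2 : (18 : ℝ) / √18 = √18 := Real.div_sqrt
  have h3 : (4.24 : ℝ) < √18 := Real.lt_sqrt_of_sq_lt (by norm_num)
  have h4 : √(((11 : ℕ) : ℝ) - 1) < 3.17 := by
    rw [Real.sqrt_lt' (by norm_num)]
    norm_num
  rw [randic_eq, h2]
  generalize √(((11 : ℕ) : ℝ) - 1) = a at h4 ⊢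
  generalize √18 = b at h3 ⊢
  norm_num at h3 h4 ⊢
  linarith

end Pool.Agent.Results.MP_e31007_co.Counter
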